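import Pool.Graph.R_seed8.Results.MP_4bd310_co.PathMaximal

/-!
# Breadth first levels and the difference of the Wiener index and the total eccentricity
-/

set_option autoImplicit false

open Finset

namespace Pool.Agent.KS6_80.WI

open Pool.Agent.R150.Wie

section counting

variable {V : Type*} [DecidableEq V]

/-- The number of pairs of `A` in the same fibre of `g`. -/
def prs (A : Finset V) (g : V → V) : ℕ := ∑ u ∈ A, ∑ v ∈ A, if g u = g v then 1 else 0

/-- The least sum of squares of `K` naturals with sum `M`. -/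
def gen (M K : ℕ) : ℕ := (2 * (M / K) + 1) * M - (M / K) * (M / K + 1) * K

lemma prs_eq (A B : Finset V) (g : V → V) (hg : ∀ u ∈ A, g u ∈ B) :
    prs A g = ∑ x ∈ B, (A.filter fun u => g u = x).card ^ 2 := by
  unfold prs
  rw [← Finset.sum_fiberwise_of_maps_to hg]
  refine Finset.sum_congr rfl fun x hx => ?_
  have h1 : ∀ u ∈ A.filter (fun u => g u = x), (∑ v ∈ A, if g u = g v then 1 else 0) =
      (A.filter fun u => g u = x).card := by
    intro u hu
    rw [Finset.mem_filter] at hu
    rw [← Finset.card_filter]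
    congr 1
    ext v
    simp [hu.2, eq_comm]
  rw [Finset.sum_congr rfl h1, Finset.sum_const, smul_eq_mul, sq]

lemma sq_ge (m t : ℕ) : (2 * t + 1) * m ≤ m ^ 2 + t * (t + 1) := by
  rcases le_or_gt m t with h | h
  · obtain ⟨k, rfl⟩ := Nat.exists_eq_add_of_le h
    nlinarith [Nat.zero_le (k * k)]
  · obtain ⟨k, rfl⟩ := Nat.exists_eq_add_of_lt h
    nlinarith [Nat.zero_le (k * k)]

lemma prs_ge (A B : Finset V) (g : V → V) (hg : ∀ u ∈ A, g u ∈ B) (t : ℕ) :
    (2 * t + 1) * A.card ≤ prs A g + t * (t + 1) * B.card := by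
  rw [prs_eq A B g hg, Finset.card_eq_sum_card_fiberwise hg, Finset.mul_sum]
  calc ∑ x ∈ B, (2 * t + 1) * (A.filter fun u => g u = x).card
      ≤ ∑ x ∈ B, ((A.filter fun u => g u = x).card ^ 2 + t * (t + 1)) :=
        Finset.sum_le_sum fun x _ => sq_ge _ _
    _ = _ := by
        rw [Finset.sum_add_distrib, Finset.sum_const, smul_eq_mul]
        ring

lemma gen_le (A B : Finset V) (g : V → V) (hg : ∀ u ∈ A, g u ∈ B) :
    gen A.card B.card ≤ prs A g := by
  unfold gen
  have := prs_ge A B g hg (A.card / B.card)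
  omega

lemma prs_split (A : Finset V) (g : V → V) (p : V → Prop) [DecidablePred p] :
    prs (A.filter p) g + prs (A.filter fun u => ¬ p u) g ≤ prs A g := by
  unfold prs
  rw [← Finset.sum_filter_add_sum_filter_not A p
    (fun u => ∑ v ∈ A, if g u = g v then 1 else 0)]
  exact add_le_add
    (Finset.sum_le_sum fun u _ => Finset.sum_le_sum_of_subset (Finset.filter_subset _ _))
    (Finset.sum_le_sum fun u _ => Finset.sum_le_sum_of_subset (Finset.filter_subset _ _))

lemma prs_const (A : Finset V) (g : V → V) (x : V) (hg : ∀ u ∈ A, g u = x) :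
    prs A g = A.card ^ 2 := by
  unfold prs
  have h1 : ∀ u ∈ A, (∑ v ∈ A, if g u = g v then 1 else 0) = A.card := by
    intro u hu
    rw [Finset.card_eq_sum_ones]
    refine Finset.sum_congr rfl fun v hv => ?_
    rw [hg u hu, hg v hv, if_pos rfl]
  rw [Finset.sum_congr rfl h1, Finset.sum_const, smul_eq_mul, sq]

end counting

section levels

variable {V : Type*}

/-- A choice of ancestors on the levels `1` and `2` below the root `c`. -/
structure Lev (d : V → V → ℕ) (c : V) (a1 a2 : V → V) : Prop where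
  gm : GM d
  le3 : ∀ v, d c v ≤ 3
  l1 : ∀ v, 1 ≤ d c v → d c (a1 v) = 1
  d1 : ∀ v, 1 ≤ d c v → d (a1 v) v + 1 ≤ d c v
  l2 : ∀ v, 2 ≤ d c v → d c (a2 v) = 2
  d2 : ∀ v, 2 ≤ d c v → d (a2 v) v + 2 ≤ d c v
  a12 : ∀ v, 2 ≤ d c v → a1 (a2 v) = a1 v

lemma exists_lev {d : V → V → ℕ} (gm : GM d) (c : V) (hc : ∀ v, d c v ≤ 3) :
    ∃ a1 a2 : V → V, Lev d c a1 a2 := by
  classical
  have hpar : ∀ v, ∃ z, 1 ≤ d c v → d z v = 1 ∧ d c v = 1 + d c z := by
    intro v
    by_cases hv : v = c
    · refine ⟨v, fun h => ?_⟩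
      rw [hv, gm.self] at h
      omega
    · obtain ⟨z, hz1, hz2⟩ := gm.nbr v c hv
      refine ⟨z, fun _ => ⟨by rw [gm.symm, hz1], ?_⟩⟩
      rw [gm.symm c v, gm.symm c z, hz2]
  choose π hπ using hpar
  have hb2 : ∀ v, d c v ≤ 2 →
      (fun v => if d c v = 3 then π v else v) v = v := by
    intro v hv
    simp only
    rw [if_neg (by omega)]
  refine ⟨fun v => (fun w => if d c w = 2 then π w else w) (if d c v = 3 then π v else v),
    fun v => if d c v = 3 then π v else v, gm, hc, ?_, ?_, ?_, ?_, ?_⟩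
  · intro v hv
    have h3 := hc v
    by_cases h : d c v = 3
    · have h1 := hπ v hv
      have h2 : d c (π v) = 2 := by omega
      have h4 := hπ (π v) (by omega)
      simp only [if_pos h, if_pos h2]
      omega
    · simp only [if_neg h]
      by_cases h2 : d c v = 2
      · have h4 := hπ v hv
        rw [if_pos h2]
        omega
      · rw [if_neg h2]
        omega
  · intro v hv
    have h3 := hc v
    by_cases h : d c v = 3
    · have h1 := hπ v hv
      have h2 : d c (π v) = 2 := by omega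
      have h4 := hπ (π v) (by omega)
      simp only [if_pos h, if_pos h2]
      have h5 := gm.tri (π (π v)) (π v) v
      omega
    · simp only [if_neg h]
      by_cases h2 : d c v = 2
      · have h4 := hπ v hv
        rw [if_pos h2]
        omega
      · rw [if_neg h2, gm.self]
        omega
  · intro v hv
    have h3 := hc v
    by_cases h : d c v = 3
    · have h1 := hπ v (by omega)
      simp only [if_pos h]
      omega
    · simp only [if_neg h]
      omega
  · intro v hv
    have h3 := hc v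
    by_cases h : d c v = 3
    · have h1 := hπ v (by omega)
      simp only [if_pos h]
      omega
    · simp only [if_neg h]
      rw [gm.self]
      omega
  · intro v hv
    have h3 := hc v
    have h5 : (if d c (if d c v = 3 then π v else v) = 3 then
        π (if d c v = 3 then π v else v) else (if d c v = 3 then π v else v)) =
        (if d c v = 3 then π v else v) := by
      rw [if_neg]
      by_cases h : d c v = 3
      · have h1 := hπ v (by omega)
        rw [if_pos h]
        omega
      · rw [if_neg h]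
        omega
    simp only [h5]

variable [Fintype V] [DecidableEq V]

/-- Twice the number of common levels of `u` and `v`. -/
def EE (d : V → V → ℕ) (c : V) (a1 a2 : V → V) (u v : V) : ℕ :=
  (if (1 ≤ d c u ∧ 1 ≤ d c v) ∧ a1 u = a1 v then 2 else 0) +
  (if (2 ≤ d c u ∧ 2 ≤ d c v) ∧ a2 u = a2 v then 2 else 0) +
  (if u = v ∧ d c u = 3 then 2 else 0)

variable {d : V → V → ℕ} {c : V} {a1 a2 : V → V}

omit [Fintype V] in
lemma dE (h : Lev d c a1 a2) (u v : V) : d u v + EE d c a1 a2 u v ≤ d c u + d c v := by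
  unfold EE
  have h3 := h.le3 u
  by_cases huv : u = v
  · subst huv
    rw [h.gm.self]
    split_ifs <;> omega
  · rw [if_neg (c := u = v ∧ d c u = 3) (fun hh => huv hh.1)]
    by_cases h2 : (2 ≤ d c u ∧ 2 ≤ d c v) ∧ a2 u = a2 v
    · have e1 := h.d2 u h2.1.1
      have e2 := h.d2 v h2.1.2
      have e3 := h.gm.tri u (a2 u) v
      rw [if_pos h2]
      have e4 := h.gm.symm u (a2 u)
      have e5 : d (a2 u) v = d (a2 v) v := by rw [h2.2]
      split_ifs <;> omega
    · rw [if_neg h2]
      by_cases h1 : (1 ≤ d c u ∧ 1 ≤ d c v) ∧ a1 u = a1 v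
      · have e1 := h.d1 u h1.1.1
        have e2 := h.d1 v h1.1.2
        have e3 := h.gm.tri u (a1 u) v
        rw [if_pos h1]
        have e4 := h.gm.symm u (a1 u)
        have e5 : d (a1 u) v = d (a1 v) v := by rw [h1.2]
        omega
      · rw [if_neg h1]
        have e3 := h.gm.tri u c v
        have e4 := h.gm.symm u c
        omega

omit [Fintype V] in
lemma EE_zero (h : Lev d c a1 a2) (u v : V) (huv : d c u = 0 ∨ d c v = 0 ∨ a1 u ≠ a1 v) :
    EE d c a1 a2 u v = 0 := by
  unfold EE
  have h1 : ¬ ((1 ≤ d c u ∧ 1 ≤ d c v) ∧ a1 u = a1 v) := by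
    rintro ⟨⟨e1, e2⟩, e3⟩
    rcases huv with g | g | g
    · omega
    · omega
    · exact g e3
  have h2 : ¬ ((2 ≤ d c u ∧ 2 ≤ d c v) ∧ a2 u = a2 v) := by
    rintro ⟨⟨e1, e2⟩, e3⟩
    apply h1
    refine ⟨⟨by omega, by omega⟩, ?_⟩
    rw [← h.a12 u e1, ← h.a12 v e2, e3]
  have h3 : ¬ (u = v ∧ d c u = 3) := by
    rintro ⟨e1, e2⟩
    subst e1
    exact h1 ⟨⟨by omega, by omega⟩, rfl⟩
  rw [if_neg h1, if_neg h2, if_neg h3]

lemma sumE : ∑ u, ∑ v, EE d c a1 a2 u v =
    2 * prs (univ.filter fun u => 1 ≤ d c u) a1 + 2 * prs (univ.filter fun u => 2 ≤ d c u) a2 +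
      2 * (univ.filter fun u => d c u = 3).card := by
  have key : ∀ (p : V → Prop) [DecidablePred p] (g : V → V),
      ∑ u, ∑ v, (if (p u ∧ p v) ∧ g u = g v then 2 else 0) = 2 * prs (univ.filter p) g := by
    intro p _ g
    unfold prs
    rw [Finset.sum_filter, Finset.mul_sum]
    refine Finset.sum_congr rfl fun u _ => ?_
    by_cases hu : p u
    · rw [if_pos hu, Finset.sum_filter, Finset.mul_sum]
      refine Finset.sum_congr rfl fun v _ => ?_
      by_cases hv : p v
      · by_cases hg : g u = g v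
        · simp [hu, hv, hg]
        · simp [hg]
      · simp [hv]
    · simp [hu]
  unfold EE
  simp only [Finset.sum_add_distrib]
  rw [key (fun u => 1 ≤ d c u) a1, key (fun u => 2 ≤ d c u) a2]
  congr 1
  rw [Finset.card_filter, Finset.mul_sum]
  refine Finset.sum_congr rfl fun u _ => ?_
  rw [Finset.sum_eq_single u]
  · simp
  · intro b _ hb
    rw [if_neg]
    exact fun hh => hb hh.1.symm
  · simp

lemma row (h : Lev d c a1 a2) (u p q : V) (hpq : p ≠ q) (hp : EE d c a1 a2 u p = 0)
    (hq : EE d c a1 a2 u q = 0) :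
    ∑ v, d u v + ∑ v, EE d c a1 a2 u v + 2 * d c u + (d c p + d c q) ≤
      2 * ec d u + (Fintype.card V * d c u + ∑ v, d c v) := by
  have e1 := Finset.add_sum_erase univ (fun v => d u v + EE d c a1 a2 u v) (mem_univ p)
  have e2 := Finset.add_sum_erase (univ.erase p) (fun v => d u v + EE d c a1 a2 u v)
    (Finset.mem_erase.2 ⟨hpq.symm, mem_univ q⟩)
  have e3 := Finset.add_sum_erase univ (fun v => d c u + d c v) (mem_univ p)
  have e4 := Finset.add_sum_erase (univ.erase p) (fun v => d c u + d c v)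
    (Finset.mem_erase.2 ⟨hpq.symm, mem_univ q⟩)
  have e5 : ∑ v ∈ (univ.erase p).erase q, (d u v + EE d c a1 a2 u v) ≤
      ∑ v ∈ (univ.erase p).erase q, (d c u + d c v) :=
    Finset.sum_le_sum fun v _ => dE h u v
  have e6 : ∑ v, (d u v + EE d c a1 a2 u v) = ∑ v, d u v + ∑ v, EE d c a1 a2 u v :=
    Finset.sum_add_distrib
  have e7 : ∑ v, (d c u + d c v) = Fintype.card V * d c u + ∑ v, d c v := by
    rw [Finset.sum_add_distrib, Finset.sum_const, smul_eq_mul, Finset.card_univ]
  have e8 := le_ec d u p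
  have e9 := le_ec d u q
  omega

lemma total (h : Lev d c a1 a2) (w : V → ℕ)
    (hw : ∀ u, ∃ p q, p ≠ q ∧ EE d c a1 a2 u p = 0 ∧ EE d c a1 a2 u q = 0 ∧
      w u ≤ d c p + d c q) :
    W2 d univ + (2 * prs (univ.filter fun u => 1 ≤ d c u) a1 +
      2 * prs (univ.filter fun u => 2 ≤ d c u) a2 + 2 * (univ.filter fun u => d c u = 3).card) +
      2 * ∑ v, d c v + ∑ u, w u ≤ 2 * E1 d univ + 2 * Fintype.card V * ∑ v, d c v := by
  rw [← sumE]
  unfold W2 E1
  have key : ∑ u, (∑ v, d u v + ∑ v, EE d c a1 a2 u v + 2 * d c u + w u) ≤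
      ∑ u, (2 * ec d u + (Fintype.card V * d c u + ∑ v, d c v)) := by
    refine Finset.sum_le_sum fun u _ => ?_
    obtain ⟨p, q, h1, h2, h3, h4⟩ := hw u
    have := row h u p q h1 h2 h3
    omega
  simp only [Finset.sum_add_distrib, ← Finset.mul_sum, Finset.sum_const, smul_eq_mul,
    Finset.card_univ] at key
  have e : ∀ u, univ.sup (d u) = ec d u := fun _ => rfl
  simp only [e]
  nlinarith [key]

end levels

end Pool.Agent.KS6_80.WI
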