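import Pool.Agent.KS6_80.WI.A

/-!
# The finite checks and the counting lemmas
-/

set_option autoImplicit false

open Finset

namespace Pool.Agent.KS6_80.WI

open Pool.Agent.R150.Wie

/-! ### Finite checks -/

/-- The inequality to be checked. -/
def fin (n L S : ℕ) : Bool :=
  decide (12 * n * L + 9 * n * n < 2 * n * n * n + 4 * n + 3 * (n % 2) + 6 * S)

/-- The body of the check. -/
def bA2 (k P R : ℕ) : Bool :=
  (k == 0) || (P == 0) || decide (1 + k + P + R < 9) || decide (20 ≤ 1 + k + P + R) ||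
    fin (1 + k + P + R) (k + 2 * P + 3 * R)
      (2 * gen (k + P + R) k + 2 * gen (P + R) P + 2 * R + 2 * (k + 2 * P + 3 * R) +
        6 * (1 + k + P + R))

theorem chkA2 : ∀ k < 20, ∀ P < 20 - k, ∀ R < 20 - k - P, bA2 k P R = true := by
  decide +kernel

/-- The body of the check. -/
def bA0 (k P : ℕ) : Bool :=
  (k == 0) || decide (1 + k + P + 2 < 9) || decide (20 ≤ 1 + k + P + 2) ||
    fin (1 + k + P + 2) (k + 2 * P + 3 * 2)
      (2 * gen (k + P + 2) k + 2 * gen (P + 2) P + 2 * 2 + 2 * (k + 2 * P + 3 * 2) +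
        (5 * (1 + k + P + 2) + 1 + (k - 2)))

theorem chkA0 : ∀ k < 20, ∀ P < 20 - k, bA0 k P = true := by
  decide +kernel

/-- The body of the check. -/
def bC1 (k P : ℕ) : Bool :=
  (k == 0) || decide (1 + k + P < 9) || decide (20 ≤ 1 + k + P) ||
    fin (1 + k + P) (k + 2 * P)
      (2 * gen (k + P) k + 2 * gen P P + 2 * (k + 2 * P) + (3 * (1 + k + P) + 1))

theorem chkC1 : ∀ k < 20, ∀ P < 20 - k, bC1 k P = true := by
  decide +kernel

/-- The body of the check. -/
def bC2 (p k : ℕ) : Bool :=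
  decide (1 + (1 + k) + p < 9) || decide (20 ≤ 1 + (1 + k) + p) ||
    fin (1 + (1 + k) + p) ((1 + k) + 2 * p)
      (2 * ((1 + p) ^ 2 + gen k k) + 2 * gen p p + 2 * ((1 + k) + 2 * p) +
        (3 * (1 + (1 + k) + p) - 2 * (1 + p)))

theorem chkC2 : ∀ p < 20, ∀ k < 20 - p, bC2 p k = true := by
  decide +kernel

/-- The body of the check. -/
def bA1 (p r k P : ℕ) : Bool :=
  (p == 0) || (k == 0) || decide (1 + (1 + k) + (p + P) + (r + 1) < 9) ||
    decide (20 ≤ 1 + (1 + k) + (p + P) + (r + 1)) ||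
    fin (1 + (1 + k) + (p + P) + (r + 1)) ((1 + k) + 2 * (p + P) + 3 * (r + 1))
      (2 * ((1 + p + r) ^ 2 + gen (k + P + 1) k) + 2 * (gen (p + r) p + gen (P + 1) P) +
        2 * (r + 1) + 2 * ((1 + k) + 2 * (p + P) + 3 * (r + 1)) +
        (6 * (1 + (1 + k) + (p + P) + (r + 1)) - (1 + p + r)))

theorem chkA1 : ∀ p < 20, ∀ r < 20 - p, ∀ k < 20 - p - r, ∀ P < 20 - p - r - k,
    bA1 p r k P = true := by
  decide +kernel

/-- The body of the check. -/
def bB (p r k P : ℕ) : Bool :=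
  (p == 0) || (k == 0) || decide (1 + (1 + k) + (p + P) + r < 9) ||
    decide (20 ≤ 1 + (1 + k) + (p + P) + r) ||
    fin (1 + (1 + k) + (p + P) + r) ((1 + k) + 2 * (p + P) + 3 * r)
      (2 * ((1 + p + r) ^ 2 + gen (k + P) k) + 2 * (gen (p + r) p + gen P P) +
        2 * r + 2 * ((1 + k) + 2 * (p + P) + 3 * r) +
        ((if 2 ≤ r then 6 else 5) * (1 + (1 + k) + (p + P) + r) -
          ((if 2 ≤ r then 6 else 5) - 3) * (1 + p + r)))

theorem chkB : ∀ p < 20, ∀ r < 20 - p, ∀ k < 20 - p - r, ∀ P < 20 - p - r - k,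
    bB p r k P = true := by
  decide +kernel

end Pool.Agent.KS6_80.WI
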