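import Pool.Agent.KS6_80.WI.B

/-!
# Counting the levels and the lower bounds for the number of pairs
-/

set_option autoImplicit false

open Finset

namespace Pool.Agent.KS6_80.WI

open Pool.Agent.R150.Wie

variable {V : Type*} [Fintype V] [DecidableEq V]

/-- The number of vertices with the property `Q` on the level `i`. -/
def lv (d : V → V → ℕ) (c : V) (i : ℕ) (Q : V → Prop) [DecidablePred Q] : ℕ :=
  (univ.filter fun v => d c v = i ∧ Q v).card

variable {d : V → V → ℕ} {c : V} {a1 a2 : V → V}

omit [DecidableEq V] in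
lemma card_ge1 (hle : ∀ v, d c v ≤ 3) (Q : V → Prop) [DecidablePred Q] :
    (univ.filter fun v => 1 ≤ d c v ∧ Q v).card = lv d c 1 Q + lv d c 2 Q + lv d c 3 Q := by
  unfold lv
  simp only [Finset.card_filter]
  rw [← Finset.sum_add_distrib, ← Finset.sum_add_distrib]
  refine Finset.sum_congr rfl fun v _ => ?_
  have := hle v
  by_cases hQ : Q v
  · simp only [hQ, and_true]
    split_ifs <;> omega
  · simp [hQ]

omit [DecidableEq V] in
lemma card_ge2 (hle : ∀ v, d c v ≤ 3) (Q : V → Prop) [DecidablePred Q] :
    (univ.filter fun v => 2 ≤ d c v ∧ Q v).card = lv d c 2 Q + lv d c 3 Q := by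
  unfold lv
  simp only [Finset.card_filter]
  rw [← Finset.sum_add_distrib]
  refine Finset.sum_congr rfl fun v _ => ?_
  have := hle v
  by_cases hQ : Q v
  · simp only [hQ, and_true]
    split_ifs <;> omega
  · simp [hQ]

omit [DecidableEq V] in
lemma lv_split (i : ℕ) (Q : V → Prop) [DecidablePred Q] :
    (univ.filter fun v => d c v = i).card = lv d c i Q + lv d c i (fun v => ¬ Q v) := by
  unfold lv
  simp only [Finset.card_filter]
  rw [← Finset.sum_add_distrib]
  refine Finset.sum_congr rfl fun v _ => ?_
  by_cases hQ : Q v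
  · simp [hQ]
  · simp [hQ]

omit [DecidableEq V] in
lemma lam_eq (hle : ∀ v, d c v ≤ 3) :
    ∑ v, d c v = (univ.filter fun v => d c v = 1).card + 2 * (univ.filter fun v => d c v = 2).card
      + 3 * (univ.filter fun v => d c v = 3).card := by
  simp only [Finset.card_filter, Finset.mul_sum]
  rw [← Finset.sum_add_distrib, ← Finset.sum_add_distrib]
  refine Finset.sum_congr rfl fun v _ => ?_
  have := hle v
  split_ifs <;> omega

omit [DecidableEq V] in
lemma card_eq (gm : GM d) (hle : ∀ v, d c v ≤ 3) :
    Fintype.card V = 1 + (univ.filter fun v => d c v = 1).card +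
      (univ.filter fun v => d c v = 2).card + (univ.filter fun v => d c v = 3).card := by
  have h0 : (univ.filter fun v => d c v = 0).card = 1 := by
    classical
    have : (univ.filter fun v => d c v = 0) = {c} := by
      ext v
      simp only [Finset.mem_filter, Finset.mem_univ, true_and, Finset.mem_singleton]
      constructor
      · intro h
        exact (gm.eq_of_zero h).symm
      · rintro rfl
        exact gm.self v
    rw [this, Finset.card_singleton]
  have h1 : Fintype.card V = (univ.filter fun v => d c v = 0).card +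
      (univ.filter fun v => d c v = 1).card +
      (univ.filter fun v => d c v = 2).card + (univ.filter fun v => d c v = 3).card := by
    rw [← Finset.card_univ, Finset.card_eq_sum_ones]
    simp only [Finset.card_filter]
    rw [← Finset.sum_add_distrib, ← Finset.sum_add_distrib, ← Finset.sum_add_distrib]
    refine Finset.sum_congr rfl fun v _ => ?_
    have := hle v
    split_ifs <;> omega
  rw [h1, h0]

omit [Fintype V] [DecidableEq V] in
lemma a1_of_one (h : Lev d c a1 a2) {v : V} (hv : d c v = 1) : a1 v = v := by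
  have := h.d1 v (by omega)
  exact h.gm.eq_of_zero (by omega)

omit [Fintype V] [DecidableEq V] in
lemma a2_of_two (h : Lev d c a1 a2) {v : V} (hv : d c v = 2) : a2 v = v := by
  have := h.d2 v (by omega)
  exact h.gm.eq_of_zero (by omega)

lemma lv_one (h : Lev d c a1 a2) {x : V} (hx : d c x = 1) :
    lv d c 1 (fun v => a1 v = x) = 1 := by
  unfold lv
  have : (univ.filter fun v => d c v = 1 ∧ a1 v = x) = {x} := by
    ext v
    simp only [Finset.mem_filter, Finset.mem_univ, true_and, Finset.mem_singleton]
    constructor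
    · rintro ⟨h1, h2⟩
      rw [← h2, a1_of_one h h1]
    · rintro rfl
      exact ⟨hx, a1_of_one h hx⟩
  rw [this, Finset.card_singleton]

omit [DecidableEq V] in
lemma card_A1 (hle : ∀ v, d c v ≤ 3) : (univ.filter fun u => 1 ≤ d c u).card =
      (univ.filter fun v => d c v = 1).card + (univ.filter fun v => d c v = 2).card +
      (univ.filter fun v => d c v = 3).card := by
  simp only [Finset.card_filter]
  rw [← Finset.sum_add_distrib, ← Finset.sum_add_distrib]
  refine Finset.sum_congr rfl fun v _ => ?_
  have := hle v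
  split_ifs <;> omega

/-- The generic bound for the level `1`. -/
lemma S1g (h : Lev d c a1 a2) :
    gen ((univ.filter fun v => d c v = 1).card + (univ.filter fun v => d c v = 2).card +
      (univ.filter fun v => d c v = 3).card) (univ.filter fun v => d c v = 1).card ≤
    prs (univ.filter fun u => 1 ≤ d c u) a1 := by
  have h1 : (univ.filter fun u => 1 ≤ d c u).card =
      (univ.filter fun v => d c v = 1).card + (univ.filter fun v => d c v = 2).card +
      (univ.filter fun v => d c v = 3).card := by
    simp only [Finset.card_filter]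
    rw [← Finset.sum_add_distrib, ← Finset.sum_add_distrib]
    refine Finset.sum_congr rfl fun v _ => ?_
    have := h.le3 v
    split_ifs <;> omega
  rw [← h1]
  refine gen_le _ _ _ fun u hu => ?_
  simp only [Finset.mem_filter, Finset.mem_univ, true_and] at hu ⊢
  exact h.l1 u hu

/-- The generic bound for the level `2`. -/
lemma S2g (h : Lev d c a1 a2) :
    gen ((univ.filter fun v => d c v = 2).card +
      (univ.filter fun v => d c v = 3).card) (univ.filter fun v => d c v = 2).card ≤
    prs (univ.filter fun u => 2 ≤ d c u) a2 := by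
  have h1 : (univ.filter fun u => 2 ≤ d c u).card =
      (univ.filter fun v => d c v = 2).card +
      (univ.filter fun v => d c v = 3).card := by
    simp only [Finset.card_filter]
    rw [← Finset.sum_add_distrib]
    refine Finset.sum_congr rfl fun v _ => ?_
    have := h.le3 v
    split_ifs <;> omega
  rw [← h1]
  refine gen_le _ _ _ fun u hu => ?_
  simp only [Finset.mem_filter, Finset.mem_univ, true_and] at hu ⊢
  exact h.l2 u hu

/-- The split bound for the level `1`. -/
lemma S1x (h : Lev d c a1 a2) {x : V} (hx : d c x = 1) :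
    (1 + lv d c 2 (fun v => a1 v = x) + lv d c 3 (fun v => a1 v = x)) ^ 2 +
      gen (lv d c 1 (fun v => ¬ a1 v = x) + lv d c 2 (fun v => ¬ a1 v = x) +
        lv d c 3 (fun v => ¬ a1 v = x)) (lv d c 1 (fun v => ¬ a1 v = x)) ≤
    prs (univ.filter fun u => 1 ≤ d c u) a1 := by
  refine le_trans ?_ (prs_split _ a1 (fun v => a1 v = x))
  rw [Finset.filter_filter, Finset.filter_filter]
  refine add_le_add ?_ ?_
  · rw [prs_const _ a1 x, card_ge1 h.le3 (fun v => a1 v = x), lv_one h hx]
    intro u hu
    simp only [Finset.mem_filter, Finset.mem_univ, true_and] at hu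
    exact hu.2
  · rw [← card_ge1 h.le3 (fun v => ¬ a1 v = x)]
    unfold lv
    refine gen_le _ _ _ fun u hu => ?_
    simp only [Finset.mem_filter, Finset.mem_univ, true_and] at hu ⊢
    have h1 := h.l1 u hu.1
    refine ⟨h1, ?_⟩
    rw [a1_of_one h h1]
    exact hu.2

/-- The split bound for the level `2`. -/
lemma S2x (h : Lev d c a1 a2) (x : V) :
    gen (lv d c 2 (fun v => a1 v = x) + lv d c 3 (fun v => a1 v = x))
        (lv d c 2 (fun v => a1 v = x)) +
      gen (lv d c 2 (fun v => ¬ a1 v = x) + lv d c 3 (fun v => ¬ a1 v = x))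
        (lv d c 2 (fun v => ¬ a1 v = x)) ≤
    prs (univ.filter fun u => 2 ≤ d c u) a2 := by
  refine le_trans ?_ (prs_split _ a2 (fun v => a1 v = x))
  rw [Finset.filter_filter, Finset.filter_filter]
  refine add_le_add ?_ ?_
  · rw [← card_ge2 h.le3 (fun v => a1 v = x)]
    unfold lv
    refine gen_le _ _ _ fun u hu => ?_
    simp only [Finset.mem_filter, Finset.mem_univ, true_and] at hu ⊢
    refine ⟨h.l2 u hu.1, ?_⟩
    rw [h.a12 u hu.1]
    exact hu.2
  · rw [← card_ge2 h.le3 (fun v => ¬ a1 v = x)]
    unfold lv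
    refine gen_le _ _ _ fun u hu => ?_
    simp only [Finset.mem_filter, Finset.mem_univ, true_and] at hu ⊢
    refine ⟨h.l2 u hu.1, ?_⟩
    rw [h.a12 u hu.1]
    exact hu.2

omit [DecidableEq V] in
lemma lv_pos {i : ℕ} {Q : V → Prop} [DecidablePred Q] (hp : 1 ≤ lv d c i Q) :
    ∃ v, d c v = i ∧ Q v := by
  unfold lv at hp
  obtain ⟨v, hv⟩ := Finset.card_pos.1 hp
  simp only [Finset.mem_filter, Finset.mem_univ, true_and] at hv
  exact ⟨v, hv⟩

omit [DecidableEq V] in
lemma lv_two {i : ℕ} {Q : V → Prop} [DecidablePred Q] (hp : 2 ≤ lv d c i Q) :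
    ∃ v w, v ≠ w ∧ (d c v = i ∧ Q v) ∧ (d c w = i ∧ Q w) := by
  unfold lv at hp
  obtain ⟨v, hv, w, hw, hvw⟩ := Finset.one_lt_card.1 hp
  simp only [Finset.mem_filter, Finset.mem_univ, true_and] at hv hw
  exact ⟨v, w, hvw, hv, hw⟩

omit [DecidableEq V] in
lemma pos_lv {i : ℕ} {Q : V → Prop} [DecidablePred Q] {v : V} (h1 : d c v = i) (h2 : Q v) :
    1 ≤ lv d c i Q := by
  unfold lv
  refine Finset.card_pos.2 ⟨v, ?_⟩
  simp only [Finset.mem_filter, Finset.mem_univ, true_and]
  exact ⟨h1, h2⟩

omit [DecidableEq V] in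
/-- The sum of a function with two values. -/
lemma sum_two (Q : V → Prop) [DecidablePred Q] (a b : ℕ) (hab : a ≤ b) :
    ∑ u : V, (if Q u then a else b) + (b - a) * (univ.filter Q).card = b * Fintype.card V := by
  rw [Finset.card_filter, Finset.mul_sum, ← Finset.sum_add_distrib]
  rw [Finset.sum_congr rfl (g := fun _ => b)]
  · rw [Finset.sum_const, smul_eq_mul, Finset.card_univ, mul_comm]
  · intro u _
    split_ifs <;> omega

omit [DecidableEq V] in
/-- The conclusion from the check. -/
lemma conclude {n L S : ℕ} (hW' : W2 d univ + S ≤ 2 * E1 d univ + 2 * n * L)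
    (hchk : fin n L S = true) : f2 d univ < F2 n := by
  have hW : (W2 d univ : ℤ) + S ≤ 2 * E1 d univ + 2 * n * L := by exact_mod_cast hW'
  unfold fin at hchk
  have h1 := of_decide_eq_true hchk
  have h2 := pw_closed n
  have h3 := pe_closed n
  unfold f2 F2
  generalize n % 2 = m at h1 h3
  have h4 : ((12 * n * L + 9 * n * n : ℕ) : ℤ) < ((2 * n * n * n + 4 * n + 3 * m + 6 * S : ℕ) : ℤ) := by
    exact_mod_cast h1
  push_cast at h4
  nlinarith [h4, h2, h3, hW]

end Pool.Agent.KS6_80.WI
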