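import Pool.Agent.KS6_80.WI.C

/-!
# The cases
-/

set_option autoImplicit false

open Finset

namespace Pool.Agent.KS6_80.WI

open Pool.Agent.R150.Wie

variable {V : Type*} [Fintype V] [DecidableEq V] {d : V → V → ℕ} {c : V} {a1 a2 : V → V}

/-- Two deep vertices outside every branch. -/
theorem caseA2 (h : Lev d c a1 a2) (hn : 9 ≤ Fintype.card V) (hn2 : Fintype.card V < 20)
    (hL1 : ∃ x, d c x = 1)
    (hA : ∀ x, d c x = 1 → 2 ≤ lv d c 3 (fun v => ¬ a1 v = x)) :
    f2 d univ < F2 (Fintype.card V) := by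
  obtain ⟨x, hx⟩ := hL1
  have ht := total h (fun _ => 6) (by
    intro u
    by_cases hu : d c u = 0
    · obtain ⟨v, w, hvw, h1, h2⟩ := lv_two (hA x hx)
      exact ⟨v, w, hvw, EE_zero h u v (Or.inl hu), EE_zero h u w (Or.inl hu), by
        omega⟩
    · obtain ⟨v, w, hvw, h1, h2⟩ := lv_two (hA (a1 u) (h.l1 u (by omega)))
      exact ⟨v, w, hvw, EE_zero h u v (Or.inr (Or.inr fun e => h1.2 e.symm)),
        EE_zero h u w (Or.inr (Or.inr fun e => h2.2 e.symm)), by omega⟩)
  obtain ⟨y, -, -, hy, -⟩ := lv_two (hA x hx)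
  have hP : 1 ≤ (univ.filter fun v => d c v = 2).card :=
    Finset.card_pos.2 ⟨a2 y, by simpa using h.l2 y (by omega)⟩
  have hk : 1 ≤ (univ.filter fun v => d c v = 1).card :=
    Finset.card_pos.2 ⟨x, by simpa using hx⟩
  have hcard := card_eq h.gm h.le3
  have hlam := lam_eq h.le3
  have hS1 := S1g h
  have hS2 := S2g h
  rw [Finset.sum_const, smul_eq_mul, Finset.card_univ, hlam, hcard] at ht
  rw [hcard] at hn hn2 ⊢
  generalize (univ.filter fun v => d c v = 1).card = k at *
  generalize (univ.filter fun v => d c v = 2).card = P at *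
  generalize (univ.filter fun v => d c v = 3).card = R at *
  have hchk := chkA2 k (by omega) P (by omega) R (by omega)
  simp only [bA2, Bool.or_eq_true, beq_iff_eq, decide_eq_true_eq] at hchk
  rcases hchk with (((c1 | c2) | c3) | c4) | c5
  · omega
  · omega
  · omega
  · omega
  · refine conclude ?_ c5
    omega

/-- Exactly two deep vertices, in different branches. -/
theorem caseA0 (h : Lev d c a1 a2) (hn : 9 ≤ Fintype.card V) (hn2 : Fintype.card V < 20)
    {x y y' : V} (hx : d c x = 1) (hy : d c y = 3) (hy' : d c y' = 3) (hyx : ¬ a1 y = x)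
    (hyx' : a1 y' = x) (hR : (univ.filter fun v => d c v = 3).card = 2) :
    f2 d univ < F2 (Fintype.card V) := by
  have hyy : y ≠ y' := by
    rintro rfl
    exact hyx hyx'
  have hly := h.l2 y (by omega)
  have hly' := h.l2 y' (by omega)
  have ha := h.a12 y (by omega)
  have ha' := h.a12 y' (by omega)
  have ht := total h (fun u => if 1 ≤ d c u ∧ (a1 u = x ∨ a1 u = a1 y) then 5 else 6) (by
    intro u
    by_cases hu : d c u = 0
    · refine ⟨y, y', hyy, EE_zero h u y (Or.inl hu), EE_zero h u y' (Or.inl hu), ?_⟩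
      split_ifs <;> omega
    · by_cases h1 : a1 u = x
      · refine ⟨y, a2 y, fun e => by rw [← e] at hly; omega,
          EE_zero h u y (Or.inr (Or.inr ?_)), EE_zero h u _ (Or.inr (Or.inr ?_)), ?_⟩
        · rw [h1]; exact fun e => hyx e.symm
        · rw [h1, ha]; exact fun e => hyx e.symm
        · rw [if_pos ⟨by omega, Or.inl h1⟩]; omega
      · by_cases h2 : a1 u = a1 y
        · refine ⟨y', a2 y', fun e => by rw [← e] at hly'; omega,
            EE_zero h u y' (Or.inr (Or.inr ?_)), EE_zero h u _ (Or.inr (Or.inr ?_)), ?_⟩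
          · rw [h2, hyx']; exact hyx
          · rw [h2, ha', hyx']; exact hyx
          · rw [if_pos ⟨by omega, Or.inr h2⟩]; omega
        · refine ⟨y, y', hyy, EE_zero h u y (Or.inr (Or.inr h2)),
            EE_zero h u y' (Or.inr (Or.inr ?_)), ?_⟩
          · rw [hyx']; exact h1
          · rw [if_neg]
            · omega
            · rintro ⟨-, e | e⟩
              · exact h1 e
              · exact h2 e)
  have hsum := sum_two (fun u => 1 ≤ d c u ∧ (a1 u = x ∨ a1 u = a1 y)) 5 6 (by norm_num)
  have hQ := card_ge1 h.le3 (fun u => a1 u = x ∨ a1 u = a1 y)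
  have hQ1 : lv d c 1 (fun u => a1 u = x ∨ a1 u = a1 y) ≤ 2 := by
    unfold lv
    calc (univ.filter fun v => d c v = 1 ∧ (a1 v = x ∨ a1 v = a1 y)).card
        ≤ ({x, a1 y} : Finset V).card := by
          refine Finset.card_le_card fun v hv => ?_
          simp only [Finset.mem_filter, Finset.mem_univ, true_and] at hv
          rw [Finset.mem_insert, Finset.mem_singleton]
          rcases hv.2 with e | e
          · left; rw [← e, a1_of_one h hv.1]
          · right; rw [← e, a1_of_one h hv.1]
      _ ≤ 2 := Finset.card_le_two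
  have hQ2 := lv_split (d := d) (c := c) 2 (fun u => a1 u = x ∨ a1 u = a1 y)
  have hQ3 := lv_split (d := d) (c := c) 3 (fun u => a1 u = x ∨ a1 u = a1 y)
  have hk : 2 ≤ (univ.filter fun v => d c v = 1).card := by
    refine Finset.one_lt_card.2 ⟨x, by simpa using hx, a1 y, by simpa using h.l1 y (by omega), ?_⟩
    exact fun e => hyx e.symm
  have hcard := card_eq h.gm h.le3
  have hlam := lam_eq h.le3
  have hS1 := S1g h
  have hS2 := S2g h
  rw [hlam, hcard] at ht
  rw [hR] at hS1 hS2 ht hcard hQ3
  rw [hcard] at hn hn2 hsum ⊢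
  generalize (univ.filter fun v => d c v = 1).card = k at *
  generalize (univ.filter fun v => d c v = 2).card = P at *
  generalize lv d c 1 (fun u => a1 u = x ∨ a1 u = a1 y) = q1 at *
  generalize lv d c 2 (fun u => a1 u = x ∨ a1 u = a1 y) = q2 at *
  generalize lv d c 3 (fun u => a1 u = x ∨ a1 u = a1 y) = q3 at *
  have hchk := chkA0 k (by omega) P (by omega)
  simp only [bA0, Bool.or_eq_true, beq_iff_eq, decide_eq_true_eq] at hchk
  rcases hchk with ((c1 | c3) | c4) | c5
  · omega
  · omega
  · omega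
  · refine conclude ?_ c5
    omega

/-- All but one of the deep vertices in one branch. -/
theorem caseA1 (h : Lev d c a1 a2) (hn : 9 ≤ Fintype.card V) (hn2 : Fintype.card V < 20)
    {x y : V} (hx : d c x = 1) (hy : d c y = 3) (hyx : ¬ a1 y = x)
    (hR1 : lv d c 3 (fun v => ¬ a1 v = x) = 1) (hr : 2 ≤ lv d c 3 (fun v => a1 v = x)) :
    f2 d univ < F2 (Fintype.card V) := by
  have hly := h.l2 y (by omega)
  have ha := h.a12 y (by omega)
  obtain ⟨v, w, hvw, hv, hw⟩ := lv_two hr
  have ht := total h (fun u => if 1 ≤ d c u ∧ a1 u = x then 5 else 6) (by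
    intro u
    by_cases hu : 1 ≤ d c u ∧ a1 u = x
    · rw [if_pos hu]
      refine ⟨y, a2 y, fun e => by rw [← e] at hly; omega,
          EE_zero h u y (Or.inr (Or.inr ?_)), EE_zero h u _ (Or.inr (Or.inr ?_)), by omega⟩
      · rw [hu.2]; exact fun e => hyx e.symm
      · rw [hu.2, ha]; exact fun e => hyx e.symm
    · rw [if_neg hu]
      have hu' : d c u = 0 ∨ a1 u ≠ x := by
        by_contra hcon
        push Not at hcon
        exact hu ⟨by omega, hcon.2⟩
      refine ⟨v, w, hvw, EE_zero h u v ?_, EE_zero h u w ?_, by omega⟩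
      · rw [hv.2]
        rcases hu' with e | e
        · exact Or.inl e
        · exact Or.inr (Or.inr e)
      · rw [hw.2]
        rcases hu' with e | e
        · exact Or.inl e
        · exact Or.inr (Or.inr e))
  have hsum := sum_two (fun u => 1 ≤ d c u ∧ a1 u = x) 5 6 (by norm_num)
  have hQ := card_ge1 h.le3 (fun u => a1 u = x)
  have hQ1 := lv_one h hx
  have hq1 := lv_split (d := d) (c := c) 1 (fun u => a1 u = x)
  have hq2 := lv_split (d := d) (c := c) 2 (fun u => a1 u = x)
  have hq3 := lv_split (d := d) (c := c) 3 (fun u => a1 u = x)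
  have hp : 1 ≤ lv d c 2 (fun u => a1 u = x) :=
    pos_lv (h.l2 v (by omega)) (by rw [h.a12 v (by omega)]; exact hv.2)
  have hk1 : 1 ≤ lv d c 1 (fun u => ¬ a1 u = x) :=
    pos_lv (h.l1 y (by omega)) (by rw [a1_of_one h (h.l1 y (by omega))]; exact hyx)
  have hcard := card_eq h.gm h.le3
  have hlam := lam_eq h.le3
  have hS1 := S1x h hx
  have hS2 := S2x h x
  rw [hQ1] at hq1 hQ
  rw [hR1] at hS1 hS2 hq3
  rw [hq1, hq2, hq3] at hcard hlam
  rw [hlam, hcard, hq3] at ht
  rw [hcard] at hn hn2 hsum ⊢
  generalize lv d c 1 (fun u => ¬ a1 u = x) = k at *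
  generalize lv d c 2 (fun u => a1 u = x) = p at *
  generalize lv d c 2 (fun u => ¬ a1 u = x) = P at *
  generalize lv d c 3 (fun u => a1 u = x) = r at *
  have hchk := chkA1 p (by omega) r (by omega) k (by omega) P (by omega)
  simp only [bA1, Bool.or_eq_true, beq_iff_eq, decide_eq_true_eq] at hchk
  rcases hchk with (((c1 | c2) | c3) | c4) | c5
  · omega
  · omega
  · omega
  · omega
  · refine conclude ?_ c5
    omega

/-- All deep vertices in one branch. -/
theorem caseB (h : Lev d c a1 a2) (hn : 9 ≤ Fintype.card V) (hn2 : Fintype.card V < 20)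
    {x y z : V} (hx : d c x = 1) (hy : d c y = 3) (hyx : a1 y = x)
    (hz : d c z = 2) (hzx : ¬ a1 z = x)
    (hR1 : lv d c 3 (fun v => ¬ a1 v = x) = 0) :
    f2 d univ < F2 (Fintype.card V) := by
  have hly := h.l2 y (by omega)
  have ha := h.a12 y (by omega)
  have ht := total h (fun u => if 1 ≤ d c u ∧ a1 u = x then 3 else
      (if 2 ≤ lv d c 3 (fun v => a1 v = x) then 6 else 5)) (by
    intro u
    by_cases hu : 1 ≤ d c u ∧ a1 u = x
    · rw [if_pos hu]
      have h1 := h.l1 z (by omega)
      refine ⟨z, a1 z, fun e => by rw [← e] at h1; omega,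
          EE_zero h u z (Or.inr (Or.inr ?_)), EE_zero h u _ (Or.inr (Or.inr ?_)), by omega⟩
      · rw [hu.2]; exact fun e => hzx e.symm
      · rw [hu.2, a1_of_one h h1]; exact fun e => hzx e.symm
    · rw [if_neg hu]
      have hu' : d c u = 0 ∨ a1 u ≠ x := by
        by_contra hcon
        push Not at hcon
        exact hu ⟨by omega, hcon.2⟩
      by_cases hr : 2 ≤ lv d c 3 (fun v => a1 v = x)
      · obtain ⟨v, w, hvw, hv, hw⟩ := lv_two hr
        rw [if_pos hr]
        refine ⟨v, w, hvw, EE_zero h u v ?_, EE_zero h u w ?_, by omega⟩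
        · rw [hv.2]
          rcases hu' with e | e
          · exact Or.inl e
          · exact Or.inr (Or.inr e)
        · rw [hw.2]
          rcases hu' with e | e
          · exact Or.inl e
          · exact Or.inr (Or.inr e)
      · rw [if_neg hr]
        refine ⟨y, a2 y, fun e => by rw [← e] at hly; omega, EE_zero h u y ?_,
          EE_zero h u _ ?_, by omega⟩
        · rw [hyx]
          rcases hu' with e | e
          · exact Or.inl e
          · exact Or.inr (Or.inr e)
        · rw [ha, hyx]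
          rcases hu' with e | e
          · exact Or.inl e
          · exact Or.inr (Or.inr e))
  have hsum := sum_two (fun u => 1 ≤ d c u ∧ a1 u = x) 3
    (if 2 ≤ lv d c 3 (fun v => a1 v = x) then 6 else 5) (by split_ifs <;> norm_num)
  have hQ := card_ge1 h.le3 (fun u => a1 u = x)
  have hQ1 := lv_one h hx
  have hq1 := lv_split (d := d) (c := c) 1 (fun u => a1 u = x)
  have hq2 := lv_split (d := d) (c := c) 2 (fun u => a1 u = x)
  have hq3 := lv_split (d := d) (c := c) 3 (fun u => a1 u = x)
  have hp : 1 ≤ lv d c 2 (fun u => a1 u = x) :=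
    pos_lv (h.l2 y (by omega)) (by rw [h.a12 y (by omega)]; exact hyx)
  have hk1 : 1 ≤ lv d c 1 (fun u => ¬ a1 u = x) :=
    pos_lv (h.l1 z (by omega)) (by rw [a1_of_one h (h.l1 z (by omega))]; exact hzx)
  have hcard := card_eq h.gm h.le3
  have hlam := lam_eq h.le3
  have hS1 := S1x h hx
  have hS2 := S2x h x
  rw [hQ1] at hq1 hQ
  rw [hR1, add_zero] at hS1 hS2 hq3
  rw [hq1, hq2, hq3] at hcard hlam
  rw [hlam, hcard, hq3] at ht
  rw [hQ] at hsum
  rw [hcard] at hn hn2 hsum ⊢
  generalize lv d c 1 (fun u => ¬ a1 u = x) = k at *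
  generalize lv d c 2 (fun u => a1 u = x) = p at *
  generalize lv d c 2 (fun u => ¬ a1 u = x) = P at *
  generalize lv d c 3 (fun u => a1 u = x) = r at *
  have hchk := chkB p (by omega) r (by omega) k (by omega) P (by omega)
  simp only [bB, Bool.or_eq_true, beq_iff_eq, decide_eq_true_eq] at hchk
  rcases hchk with (((c1 | c2) | c3) | c4) | c5
  · omega
  · omega
  · omega
  · omega
  · refine conclude ?_ c5
    by_cases hr : 2 ≤ r
    · simp only [if_pos hr] at hsum ht ⊢
      omega
    · simp only [if_neg hr] at hsum ht ⊢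
      omega

/-- Depth two, vertices of level two outside every branch. -/
theorem caseC1 (h : Lev d c a1 a2) (hn : 9 ≤ Fintype.card V) (hn2 : Fintype.card V < 20)
    (hR : (univ.filter fun v => d c v = 3).card = 0) (hL1 : ∃ x, d c x = 1)
    (hA : ∀ x, d c x = 1 → 1 ≤ lv d c 2 (fun v => ¬ a1 v = x)) :
    f2 d univ < F2 (Fintype.card V) := by
  obtain ⟨x, hx⟩ := hL1
  have ht := total h (fun u => if 1 ≤ d c u then 3 else 4) (by
    intro u
    by_cases hu : 1 ≤ d c u
    · rw [if_pos hu]
      obtain ⟨v, hv1, hv2⟩ := lv_pos (hA (a1 u) (h.l1 u hu))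
      have h1 := h.l1 v (by omega)
      refine ⟨v, a1 v, fun e => by rw [← e] at h1; omega,
        EE_zero h u v (Or.inr (Or.inr fun e => hv2 e.symm)),
        EE_zero h u _ (Or.inr (Or.inr ?_)), by omega⟩
      rw [a1_of_one h h1]
      exact fun e => hv2 e.symm
    · rw [if_neg hu]
      obtain ⟨v, hv1, hv2⟩ := lv_pos (hA x hx)
      obtain ⟨w, hw1, hw2⟩ := lv_pos (hA (a1 v) (h.l1 v (by omega)))
      refine ⟨v, w, ?_, EE_zero h u v (Or.inl (by omega)), EE_zero h u w (Or.inl (by omega)),
        by omega⟩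
      rintro rfl
      exact hw2 rfl)
  have hsum := sum_two (fun u => 1 ≤ d c u) 3 4 (by norm_num)
  have hQ := card_A1 h.le3
  have hk : 1 ≤ (univ.filter fun v => d c v = 1).card :=
    Finset.card_pos.2 ⟨x, by simpa using hx⟩
  have hcard := card_eq h.gm h.le3
  have hlam := lam_eq h.le3
  have hS1 := S1g h
  have hS2 := S2g h
  rw [hlam, hcard] at ht
  rw [hR] at hS1 hS2 ht hcard hQ
  rw [add_zero] at hS1 hS2 hcard hQ
  simp only [mul_zero, add_zero] at ht
  rw [hQ] at hsum
  rw [hcard] at hn hn2 hsum ⊢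
  generalize (univ.filter fun v => d c v = 1).card = k at *
  generalize (univ.filter fun v => d c v = 2).card = P at *
  have hchk := chkC1 k (by omega) P (by omega)
  simp only [bC1, Bool.or_eq_true, beq_iff_eq, decide_eq_true_eq] at hchk
  rcases hchk with ((c1 | c3) | c4) | c5
  · omega
  · omega
  · omega
  · refine conclude ?_ c5
    omega

/-- Depth two, all vertices of level two in one branch. -/
theorem caseC2 (h : Lev d c a1 a2) (hn : 9 ≤ Fintype.card V) (hn2 : Fintype.card V < 20)
    (hR : (univ.filter fun v => d c v = 3).card = 0)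
    {x y z : V} (hx : d c x = 1) (hy : d c y = 2) (hyx : a1 y = x)
    (hz : 1 ≤ d c z) (hzx : ¬ a1 z = x)
    (hP1 : lv d c 2 (fun v => ¬ a1 v = x) = 0) :
    f2 d univ < F2 (Fintype.card V) := by
  have hself := h.gm.self c
  have ht := total h (fun u => if 1 ≤ d c u ∧ a1 u = x then 1 else 3) (by
    intro u
    by_cases hu : 1 ≤ d c u ∧ a1 u = x
    · rw [if_pos hu]
      refine ⟨z, c, fun e => by rw [e] at hz; omega,
          EE_zero h u z (Or.inr (Or.inr ?_)), EE_zero h u c (Or.inr (Or.inl hself)), by omega⟩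
      rw [hu.2]; exact fun e => hzx e.symm
    · rw [if_neg hu]
      have hu' : d c u = 0 ∨ a1 u ≠ x := by
        by_contra hcon
        push Not at hcon
        exact hu ⟨by omega, hcon.2⟩
      refine ⟨y, x, fun e => by rw [e] at hy; omega, EE_zero h u y ?_,
          EE_zero h u x ?_, by omega⟩
      · rw [hyx]
        rcases hu' with e | e
        · exact Or.inl e
        · exact Or.inr (Or.inr e)
      · rw [a1_of_one h hx]
        rcases hu' with e | e
        · exact Or.inl e
        · exact Or.inr (Or.inr e))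
  have hsum := sum_two (fun u => 1 ≤ d c u ∧ a1 u = x) 1 3 (by norm_num)
  have hQ := card_ge1 h.le3 (fun u => a1 u = x)
  have hQ1 := lv_one h hx
  have hq1 := lv_split (d := d) (c := c) 1 (fun u => a1 u = x)
  have hq2 := lv_split (d := d) (c := c) 2 (fun u => a1 u = x)
  have hq3 := lv_split (d := d) (c := c) 3 (fun u => a1 u = x)
  have hr0 : lv d c 3 (fun u => a1 u = x) = 0 := by omega
  have hr1 : lv d c 3 (fun u => ¬ a1 u = x) = 0 := by omega
  have hcard := card_eq h.gm h.le3
  have hlam := lam_eq h.le3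
  have hS1 := S1x h hx
  have hS2 := S2x h x
  rw [hQ1, hr0, add_zero] at hQ
  rw [hQ1] at hq1
  rw [hP1, add_zero] at hq2
  rw [hP1, hr0, hr1] at hS1 hS2
  simp only [add_zero] at hS1 hS2
  rw [hq1, hq2, hR] at hcard hlam
  simp only [add_zero, mul_zero] at hcard hlam
  rw [hlam, hcard, hR] at ht
  rw [hQ] at hsum
  rw [hcard] at hn hn2 hsum ⊢
  generalize lv d c 1 (fun u => ¬ a1 u = x) = k at *
  generalize lv d c 2 (fun u => a1 u = x) = p at *
  have hchk := chkC2 p (by omega) k (by omega)
  simp only [bC2, Bool.or_eq_true, decide_eq_true_eq] at hchk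
  rcases hchk with (c3 | c4) | c5
  · omega
  · omega
  · refine conclude ?_ c5
    omega

end Pool.Agent.KS6_80.WI
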