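import Pool.Agent.KS6_80.WI.D

/-!
# Graphs of small radius
-/

set_option autoImplicit false

open Finset

namespace Pool.Agent.KS6_80.WI

open Pool.Agent.R150.Wie

section

variable {V : Type*} [Fintype V] {d : V → V → ℕ}

/-- The crude bound. -/
lemma crude (gm : GM d) (K : ℕ) (hK : ∀ u, ec d u ≤ K) (hn : 3 ≤ Fintype.card V) :
    f2 d univ ≤ ((Fintype.card V : ℤ) - 3) * (Fintype.card V * K) := by
  classical
  have h1 : ∀ u, ∑ v, d u v ≤ (Fintype.card V - 1) * ec d u := by
    intro u
    have e1 := Finset.add_sum_erase univ (fun v => d u v) (mem_univ u)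
    have e2 : ∑ v ∈ univ.erase u, d u v ≤ ∑ v ∈ univ.erase u, ec d u :=
      Finset.sum_le_sum fun v _ => le_ec d u v
    rw [Finset.sum_const, smul_eq_mul, Finset.card_erase_of_mem (mem_univ u),
      Finset.card_univ] at e2
    have e3 := gm.self u
    omega
  have h2 : W2 d univ ≤ ∑ u, (Fintype.card V - 1) * ec d u := by
    unfold W2
    exact Finset.sum_le_sum fun u _ => h1 u
  rw [← Finset.mul_sum] at h2
  have h3 : E1 d univ = ∑ u, ec d u := rfl
  have h4 : ∑ u, ec d u ≤ Fintype.card V * K := by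
    calc ∑ u, ec d u ≤ ∑ _u : V, K := Finset.sum_le_sum fun u _ => hK u
      _ = _ := by rw [Finset.sum_const, smul_eq_mul, Finset.card_univ]
  obtain ⟨m, hm⟩ := Nat.exists_eq_add_of_le hn
  unfold f2
  rw [h3]
  rw [hm] at h2 h4 ⊢
  generalize ∑ u, ec d u = E at *
  have h5 : 3 + m - 1 = m + 2 := by omega
  rw [h5] at h2
  have h6 : (W2 d univ : ℤ) ≤ (m + 2) * E := by exact_mod_cast h2
  have h7 : (E : ℤ) ≤ (3 + m) * K := by exact_mod_cast h4
  push_cast
  have h8 : (m : ℤ) * E ≤ m * ((3 + m) * K) := mul_le_mul_of_nonneg_left h7 (by positivity)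
  nlinarith [h6, h8]

lemma F2_six (n : ℕ) : 6 * F2 n = 2 * (n : ℤ) ^ 3 - 9 * (n : ℤ) ^ 2 + 4 * n +
    3 * ((n % 2 : ℕ) : ℤ) := by
  have h2 := pw_closed n
  have h3 := pe_closed n
  unfold F2
  linarith

/-- Small radius and at least nine vertices. -/
theorem small (gm : GM d) (hn : 9 ≤ Fintype.card V) (c : V) (hc : ec d c ≤ 3)
    (hmin : ∀ u, ec d c ≤ ec d u) : f2 d univ < F2 (Fintype.card V) := by
  classical
  have hle : ∀ v, d c v ≤ 3 := fun v => (le_ec d c v).trans hc
  by_cases hbig : 20 ≤ Fintype.card V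
  · -- many vertices
    have hK : ∀ u, ec d u ≤ 6 := by
      intro u
      obtain ⟨s, hs⟩ := exists_star d u
      rw [← hs]
      have e1 := gm.tri u c s
      have e2 := gm.symm u c
      have e3 := hle u
      have e4 := hle s
      omega
    have h1 := crude gm 6 hK (by omega)
    have h2 := F2_six (Fintype.card V)
    obtain ⟨m, hm⟩ := Nat.exists_eq_add_of_le hbig
    rw [hm] at h1 h2 ⊢
    have h3 : (0 : ℤ) ≤ (((20 + m) % 2 : ℕ) : ℤ) := by positivity
    generalize (20 + m) % 2 = r at h2 h3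
    push_cast at h1 h2
    have h4 : (0 : ℤ) ≤ m := by positivity
    nlinarith [mul_nonneg h4 h4, mul_nonneg (mul_nonneg h4 h4) h4]
  push Not at hbig
  by_cases hc1 : ec d c ≤ 1
  · have hK : ∀ u, ec d u ≤ 2 := by
      intro u
      obtain ⟨s, hs⟩ := exists_star d u
      rw [← hs]
      have e1 := gm.tri u c s
      have e2 := gm.symm u c
      have e3 := le_ec d c u
      have e4 := le_ec d c s
      omega
    have h1 := crude gm 2 hK (by omega)
    have h2 := F2_six (Fintype.card V)
    obtain ⟨m, hm⟩ := Nat.exists_eq_add_of_le hn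
    rw [hm] at h1 h2 ⊢
    have h3 : (0 : ℤ) ≤ (((9 + m) % 2 : ℕ) : ℤ) := by positivity
    generalize (9 + m) % 2 = r at h2 h3
    push_cast at h1 h2
    have h4 : (0 : ℤ) ≤ m := by positivity
    nlinarith [mul_nonneg h4 h4, mul_nonneg (mul_nonneg h4 h4) h4]
  push Not at hc1
  obtain ⟨a1, a2, h⟩ := exists_lev gm c hle
  obtain ⟨y0, hy0⟩ := exists_star d c
  have hL1 : ∃ x, d c x = 1 := ⟨a1 y0, h.l1 y0 (by omega)⟩
  by_cases hc2 : ec d c = 2
  · -- radius two
    have hR : (univ.filter fun v => d c v = 3).card = 0 := by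
      rw [Finset.card_eq_zero, Finset.filter_eq_empty_iff]
      intro v _ hv
      have := le_ec d c v
      omega
    by_cases hB : ∃ x, d c x = 1 ∧ lv d c 2 (fun v => ¬ a1 v = x) = 0
    · obtain ⟨x, hx, hP1⟩ := hB
      have hyx : a1 y0 = x := by
        by_contra hne
        have := pos_lv (d := d) (c := c) (i := 2) (Q := fun v => ¬ a1 v = x) (v := y0)
          (by omega) hne
        omega
      obtain ⟨z, hz⟩ := exists_star d x
      have h1 := hmin x
      have h2 := gm.tri x c z
      have h3 := gm.symm x c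
      refine caseC2 h hn hbig hR hx (by omega) hyx (z := z) (by omega) ?_ hP1
      intro hzx
      have h4 := h.d1 z (by omega)
      rw [hzx] at h4
      have h5 := le_ec d c z
      omega
    · push Not at hB
      exact caseC1 h hn hbig hR hL1 fun x hx => Nat.one_le_iff_ne_zero.2 (hB x hx)
  · -- radius three
    have hc3 : ec d c = 3 := by omega
    by_cases hB : ∃ x, d c x = 1 ∧ lv d c 3 (fun v => ¬ a1 v = x) = 0
    · obtain ⟨x, hx, hR1⟩ := hB
      have hyx : a1 y0 = x := by
        by_contra hne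
        have := pos_lv (d := d) (c := c) (i := 3) (Q := fun v => ¬ a1 v = x) (v := y0)
          (by omega) hne
        omega
      obtain ⟨z, hz⟩ := exists_star d x
      have h1 := hmin x
      have h2 := gm.tri x c z
      have h3 := gm.symm x c
      have h5 := hle z
      have hzx : ¬ a1 z = x := by
        intro hzx
        have h4 := h.d1 z (by omega)
        rw [hzx] at h4
        omega
      have hz3 : d c z ≠ 3 := by
        intro hz3
        have := pos_lv (d := d) (c := c) (i := 3) (Q := fun v => ¬ a1 v = x) (v := z)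
          hz3 hzx
        omega
      exact caseB h hn hbig hx (by omega) hyx (z := z) (by omega) hzx hR1
    · push Not at hB
      by_cases hA : ∃ x, d c x = 1 ∧ lv d c 3 (fun v => ¬ a1 v = x) = 1
      · obtain ⟨x, hx, hR1⟩ := hA
        obtain ⟨y, hy, hyx⟩ := lv_pos (d := d) (c := c) (i := 3) (Q := fun v => ¬ a1 v = x)
          (by omega)
        have hr1 : 1 ≤ lv d c 3 (fun v => a1 v = x) := by
          obtain ⟨z, hz, hzy⟩ := lv_pos (d := d) (c := c) (i := 3)
            (Q := fun v => ¬ a1 v = a1 y)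
            (Nat.one_le_iff_ne_zero.2 (hB (a1 y) (h.l1 y (by omega))))
          by_cases hzx : a1 z = x
          · exact pos_lv hz hzx
          · exfalso
            unfold lv at hR1
            have h1 := Finset.card_le_one.1 hR1.le z
              (by simp only [Finset.mem_filter, Finset.mem_univ, true_and]; exact ⟨hz, hzx⟩) y
              (by simp only [Finset.mem_filter, Finset.mem_univ, true_and]; exact ⟨hy, hyx⟩)
            exact hzy (by rw [h1])
        by_cases hr2 : 2 ≤ lv d c 3 (fun v => a1 v = x)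
        · exact caseA1 h hn hbig hx hy hyx hR1 hr2
        · obtain ⟨y', hy', hyx'⟩ := lv_pos hr1
          have h3 := lv_split (d := d) (c := c) 3 (fun v => a1 v = x)
          exact caseA0 h hn hbig hx hy hy' hyx hyx' (by omega)
      · push Not at hA
        refine caseA2 h hn hbig hL1 fun x hx => ?_
        have h1 : lv d c 3 (fun v => ¬ a1 v = x) ≠ 1 := hA x hx
        have h2 : lv d c 3 (fun v => ¬ a1 v = x) ≠ 0 := hB x hx
        omega

end

/-! ### Explicit graphs -/

/-- The distance of a graph from a certificate. -/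
lemma dist_of_GM {V : Type*} [Nonempty V] {D : V → V → ℕ} (gm : GM D) (G : SimpleGraph V)
    (hG : ∀ u v, G.Adj u v ↔ D u v = 1) : G.Connected ∧ ∀ u v, G.dist u v = D u v := by
  have hwalk : ∀ k : ℕ, ∀ u v : V, D u v = k → ∃ p : G.Walk u v, p.length = k := by
    intro k
    induction k with
    | zero =>
      intro u v h
      have := gm.eq_of_zero h
      subst this
      exact ⟨SimpleGraph.Walk.nil, rfl⟩
    | succ k ih =>
      intro u v h
      have hne : u ≠ v := by
        rintro rfl
        rw [gm.self] at h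
        omega
      obtain ⟨z, hz1, hz2⟩ := gm.nbr u v hne
      obtain ⟨p, hp⟩ := ih z v (by omega)
      exact ⟨SimpleGraph.Walk.cons ((hG u z).2 hz1) p, by rw [SimpleGraph.Walk.length_cons, hp]⟩
  have hlow : ∀ u v, ∀ p : G.Walk u v, D u v ≤ p.length := by
    intro u v p
    induction p with
    | nil => rw [gm.self]; exact Nat.zero_le _
    | @cons x z y h q ih =>
      rw [SimpleGraph.Walk.length_cons]
      have h1 := (hG x z).1 h
      have h2 := gm.tri x z y
      omega
  have hconn : G.Connected := by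
    rw [SimpleGraph.connected_iff]
    refine ⟨fun u v => ?_, inferInstance⟩
    obtain ⟨p, -⟩ := hwalk _ u v rfl
    exact ⟨p⟩
  refine ⟨hconn, fun u v => le_antisymm ?_ ?_⟩
  · obtain ⟨p, hp⟩ := hwalk _ u v rfl
    rw [← hp]
    exact SimpleGraph.dist_le p
  · obtain ⟨p, hp⟩ := hconn.exists_walk_length_eq_dist u v
    rw [← hp]
    exact hlow u v p

/-- The graph of a distance. -/
def ofD {n : ℕ} (D : Fin n → Fin n → ℕ) : SimpleGraph (Fin n) where
  Adj u v := D u v = 1 ∧ D v u = 1 ∧ u ≠ v
  symm := ⟨fun _ _ h => ⟨h.2.1, h.1, h.2.2.symm⟩⟩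
  loopless := ⟨fun _ h => h.2.2 rfl⟩

lemma ofD_adj {n : ℕ} {D : Fin n → Fin n → ℕ} (gm : GM D) (u v : Fin n) :
    (ofD D).Adj u v ↔ D u v = 1 := by
  constructor
  · exact fun h => h.1
  · intro h
    refine ⟨h, by rw [gm.symm]; exact h, ?_⟩
    rintro rfl
    rw [gm.self] at h
    omega

/-- A distance given by a table. -/
def tab {n : ℕ} (T : List (List ℕ)) (u v : Fin n) : ℕ := (T.getD u []).getD v 0

/-- The decidable form of `GM`. -/
def gmB {n : ℕ} (D : Fin n → Fin n → ℕ) : Prop :=
  (∀ x y, D x y = D y x) ∧ (∀ x, D x x = 0) ∧ (∀ x y z, D x z ≤ D x y + D y z) ∧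
    (∀ x y, x ≠ y → ∃ z, D x z = 1 ∧ D x y = 1 + D z y)

instance {n : ℕ} (D : Fin n → Fin n → ℕ) : Decidable (gmB D) := by
  unfold gmB
  infer_instance

lemma gm_of {n : ℕ} {D : Fin n → Fin n → ℕ} (h : gmB D) : GM D :=
  ⟨h.1, h.2.1, h.2.2.1, h.2.2.2⟩

end Pool.Agent.KS6_80.WI
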